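import Pool.Agent.W345.GK.Cl2

open Polynomial Finset
open scoped TensorProduct

namespace Pool.Agent.W490.GK.XH1

open Pool.Agent.W345.GK

section
variable {k F Fc : Type} [Field k] [Fintype k] [Field F] [Algebra k F] [Field Fc] [Algebra k Fc]
  [Algebra k[X] Fc] [IsScalarTower k k[X] Fc]

omit [Fintype k] in
theorem am (u : k) : algebraMap k (LS F) u = HahnSeries.C (algebraMap k F u) := by
  rw [HahnSeries.algebraMap_apply', PowerSeries.algebraMap_apply, HahnSeries.ofPowerSeries_C]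

theorem amF (u : F) : algebraMap F (LS F) u = HahnSeries.C u := by
  rw [HahnSeries.algebraMap_apply', PowerSeries.algebraMap_apply, HahnSeries.ofPowerSeries_C]
  rfl

theorem iA_C (u : k) : (iA (C u) : LS F) = HahnSeries.C (algebraMap k F u) := by
  rw [← amF]
  simp [iA, iF]

instance ist : @IsScalarTower k F (LS F) Algebra.toSMul Algebra.toSMul Algebra.toSMul :=
  IsScalarTower.of_algebraMap_eq fun u => by
    rw [am, amF]

/-- the embedding as an algebra map -/
noncomputable def iotaA (ι : Fc →+* LS F) (h : ∀ a : k[X], ι (algebraMap k[X] Fc a) = iA a) :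
    Fc →ₐ[k] LS F :=
  { ι with
    commutes' := by
      intro u
      show ι (algebraMap k Fc u) = _
      rw [IsScalarTower.algebraMap_apply k k[X] Fc, h, Polynomial.algebraMap_apply,
        Algebra.algebraMap_self_apply, iA_C, am] }

/-- the map `J` -/
noncomputable def JA (ι : Fc →+* LS F) (h : ∀ a : k[X], ι (algebraMap k[X] Fc a) = iA a) :
    F ⊗[k] Fc →ₐ[F] LS F :=
  Algebra.TensorProduct.lift (Algebra.ofId F (LS F)) (iotaA ι h) (fun _ _ => Commute.all _ _)

theorem JA_tmul (ι : Fc →+* LS F) (h : ∀ a : k[X], ι (algebraMap k[X] Fc a) = iA a) (u : F)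
    (y : Fc) : JA ι h (u ⊗ₜ[k] y) = HahnSeries.C u * ι y := by
  unfold JA
  rw [Algebra.TensorProduct.lift_tmul, Algebra.ofId_apply, amF]
  rfl

theorem JA_inj (ι : Fc →+* LS F) (h : ∀ a : k[X], ι (algebraMap k[X] Fc a) = iA a)
    (hr : ∀ y : Fc, KR k (ι y)) : Function.Injective (JA ι h) := by
  rw [injective_iff_map_eq_zero]
  intro z hz
  obtain ⟨w, rfl⟩ := TensorProduct.eq_repr_basis_left (Module.Basis.ofVectorSpace k F) z
  suffices hw : w = 0 by
    rw [hw]; simp
  ext i
  rw [Finsupp.sum, map_sum] at hz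
  have h1 : ∀ n : ℤ, ∀ i, ∃ x : k, algebraMap k F x = (ι (w i)).coeff n := fun n i => by
    obtain ⟨x, hx⟩ := hr (w i) n
    exact ⟨x, hx⟩
  choose x hx using h1
  have h2 : ∀ n, ∀ i ∈ w.support, x n i = 0 := by
    intro n
    have h3 := congrArg (fun f : LS F => f.coeff n) hz
    simp only [JA_tmul, HahnSeries.coeff_sum, HahnSeries.C_mul_eq_smul, HahnSeries.coeff_smul,
      HahnSeries.coeff_zero, ← hx] at h3
    have h4 : ∑ i ∈ w.support, x n i • (Module.Basis.ofVectorSpace k F) i = 0 := by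
      rw [← h3]
      refine Finset.sum_congr rfl fun i _ => ?_
      rw [Algebra.smul_def, smul_eq_mul, mul_comm]
    exact linearIndependent_iff'.mp (Module.Basis.ofVectorSpace k F).linearIndependent _ _ h4
  by_cases hi : i ∈ w.support
  · have h5 : ι (w i) = 0 := by
      ext n
      rw [← hx n i, h2 n i hi, map_zero]
      rfl
    exact (map_eq_zero ι).mp h5
  · exact Finsupp.notMem_support_iff.mp hi

end

/-! ### the polynomials `pol` -/

section
variable {k : Type} [Field k]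

theorem pol_coeff {N : ℕ} (c : Fin N → k) (m : ℕ) :
    (pol c).coeff m = if h : m < N then c ⟨m, h⟩ else 0 := by
  unfold pol
  rw [Polynomial.finsetSum_coeff]
  simp only [Polynomial.coeff_C_mul_X_pow]
  split_ifs with h
  · rw [Finset.sum_eq_single (⟨m, h⟩ : Fin N)]
    · simp
    · intro b _ hb
      rw [if_neg]
      intro h2
      exact hb (Fin.ext h2.symm)
    · intro h3
      exact absurd (Finset.mem_univ _) h3
  · refine Finset.sum_eq_zero fun i _ => ?_
    rw [if_neg]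
    rintro rfl
    exact h i.2

theorem pol_degree {N : ℕ} (c : Fin N → k) : (pol c).degree < N := by
  rw [Polynomial.degree_lt_iff_coeff_zero]
  intro m hm
  rw [pol_coeff, dif_neg (by omega)]

theorem pol_of {N : ℕ} {f : k[X]} (hf : f.degree < N) : pol (fun i : Fin N => f.coeff i) = f := by
  ext m
  rw [pol_coeff]
  split_ifs with h
  · rfl
  · exact (Polynomial.degree_lt_iff_coeff_zero _ _ |>.mp hf m (by omega)).symm

theorem pol_inj {N : ℕ} : Function.Injective (pol : (Fin N → k) → k[X]) := by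
  intro c c' h
  ext i
  have h1 := congrArg (fun f : k[X] => f.coeff i) h
  simp only [pol_coeff, i.2, dif_pos] at h1
  exact h1

/-- multiplication by `a` modulo `P` -/
noncomputable def mulm (P a : k[X]) (b : Fin P.natDegree → k) : Fin P.natDegree → k :=
  fun i => ((a * pol b) %ₘ P).coeff i

theorem pol_mulm {P : k[X]} (hP : P.Monic) (a : k[X]) (b : Fin P.natDegree → k) :
    pol (mulm P a b) = (a * pol b) %ₘ P := by
  apply pol_of
  rw [← Polynomial.degree_eq_natDegree hP.ne_zero]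
  exact Polynomial.degree_modByMonic_lt _ hP

theorem mulm_bij [Finite k] {P : k[X]} (hP : P.Monic) (hi : Irreducible P) {a : k[X]}
    (ha : ¬ P ∣ a) : Function.Bijective (mulm P a) := by
  apply Finite.injective_iff_bijective.mp
  intro b b' h
  have h1 : (a * pol b) %ₘ P = (a * pol b') %ₘ P := by
    rw [← pol_mulm hP, ← pol_mulm hP, h]
  have h2 : P ∣ a * (pol b - pol b') := by
    rw [mul_sub]
    rw [← Polynomial.modByMonic_eq_zero_iff_dvd hP, Polynomial.sub_modByMonic, h1, sub_self]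
  have h3 : P ∣ pol b - pol b' := (hi.prime.dvd_or_dvd h2).resolve_left ha
  have h4 : pol b - pol b' = 0 := by
    by_contra h5
    have h6 := Polynomial.degree_le_of_dvd h3 h5
    have h7 : (pol b - pol b').degree < P.natDegree :=
      (Polynomial.degree_sub_le _ _).trans_lt (max_lt (pol_degree b) (pol_degree b'))
    rw [← Polynomial.degree_eq_natDegree hP.ne_zero] at h7
    exact absurd h6 (not_le.mpr h7)
  exact pol_inj (sub_eq_zero.mp h4)

/-- a function which is periodic modulo `P` -/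
theorem sum_mulm [Fintype k] {M : Type} [AddCommMonoid M] {P : k[X]} (hP : P.Monic)
    (hi : Irreducible P) {a : k[X]} (ha : ¬ P ∣ a) (Φ : k[X] → M)
    (hΦ : ∀ x y, Φ (x + P * y) = Φ x) :
    ∑ b : Fin P.natDegree → k, Φ (a * pol b) = ∑ b : Fin P.natDegree → k, Φ (pol b) := by
  rw [← (mulm_bij hP hi ha).sum_comp (fun b => Φ (pol b))]
  refine Finset.sum_congr rfl fun b _ => ?_
  rw [pol_mulm hP]
  conv_lhs => rw [← Polynomial.modByMonic_add_div (a * pol b) P, hΦ]

theorem dig_sum (q κ : ℕ) : ∀ d, ∑ j ∈ range d, dig q κ j * q ^ j = κ % q ^ d := by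
  intro d
  induction d with
  | zero => simp [Nat.mod_one]
  | succ d ih =>
    rw [Finset.sum_range_succ, ih, Nat.mod_pow_succ]
    unfold dig
    ring

end

/-! ### the elements `g_j` -/

section
variable {k F Fc : Type} [Field k] [Fintype k] [Field F] [Algebra k F] [Field Fc] [Algebra k Fc]
  [Algebra k[X] Fc] [IsScalarTower k k[X] Fc] {P : k[X]}

/-- the element `g` attached to the value `t` of `T` -/
noncomputable def gj (c : CycD k Fc P) (t : F) : F ⊗[k] Fc :=
  - ∑ b : Fin P.natDegree → k, (aeval t (pol b))⁻¹ ⊗ₜ[k] c.lam (pol b)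

theorem sgT_tmul (c : CycD k Fc P) (a : k[X]) (u : F) (y : Fc) :
    sgT c a (u ⊗ₜ[k] y) = u ⊗ₜ[k] c.sg a y := by
  unfold sgT
  rw [Algebra.TensorProduct.map_tmul]
  rfl

omit [Algebra k Fc] [IsScalarTower k k[X] Fc] in
theorem lam_per (c : CycD k Fc P) (x y : k[X]) : c.lam (x + P * y) = c.lam x := by
  rw [c.add, (c.zero_iff (P * y)).mpr (dvd_mul_right _ _), add_zero]

theorem sgT_gj (hP : P.Monic) (hi : Irreducible P) (c : CycD k Fc P) {t : F} (ht : aeval t P = 0)
    (hz : ∀ a : k[X], aeval t a = 0 → P ∣ a) {a : k[X]} (ha : ¬ P ∣ a) :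
    sgT c a (gj c t) = (aeval t a) • gj c t := by
  have ha0 : aeval t a ≠ 0 := fun h => ha (hz a h)
  have key := sum_mulm hP hi ha (fun x => (aeval t x)⁻¹ ⊗ₜ[k] c.lam x) (by
    intro x y
    simp only [lam_per, map_add, map_mul, ht, zero_mul, add_zero])
  unfold gj
  rw [map_neg, map_sum, smul_neg, ← key, Finset.smul_sum]
  congr 1
  refine Finset.sum_congr rfl fun b _ => ?_
  rw [sgT_tmul, c.sg_lam _ _ ha, TensorProduct.smul_tmul', map_mul, mul_inv, smul_eq_mul,
    mul_inv_cancel_left₀ ha0]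

theorem JA_gj (c : CycD k Fc P) (ι : Fc →+* LS F)
    (h : ∀ a : k[X], ι (algebraMap k[X] Fc a) = iA a) (Lam : k[X] → LS F)
    (hL : ∀ a : k[X], ι (c.lam a) = Lam a) (θ : F) (j : ℕ) :
    JA ι h (gj c (θ ^ Fintype.card k ^ j)) = gs P θ Lam j := by
  unfold gj gs
  rw [map_neg, map_sum]
  congr 1
  refine Finset.sum_congr rfl fun b _ => ?_
  rw [JA_tmul, hL]

/-! ### the map `E` -/

/-- the product of the `g_j` -/
noncomputable def GT (c : CycD k Fc P) (θ : F) (κ : ℕ) : F ⊗[k] Fc :=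
  ∏ j ∈ range P.natDegree, gj c (θ ^ Fintype.card k ^ j) ^ dig (Fintype.card k) κ j

/-- the map `E` -/
noncomputable def EE (c : CycD k Fc P) (θ : F) (κ : ℕ) : F[X] →ₗ[F] F ⊗[k] Fc :=
  (LinearMap.mulRight F (GT c θ κ * (1 ⊗ₜ[k] (algebraMap k[X] Fc P)⁻¹))).comp
    (aeval ((1 : F) ⊗ₜ[k] (algebraMap k[X] Fc X)) : F[X] →ₐ[F] F ⊗[k] Fc).toLinearMap

omit [IsScalarTower k k[X] Fc] in
theorem EE_apply (c : CycD k Fc P) (θ : F) (κ : ℕ) (h : F[X]) :
    EE c θ κ h = aeval ((1 : F) ⊗ₜ[k] (algebraMap k[X] Fc X)) h *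
      (GT c θ κ * (1 ⊗ₜ[k] (algebraMap k[X] Fc P)⁻¹)) := rfl

theorem JA_aeval (ι : Fc →+* LS F) (h : ∀ a : k[X], ι (algebraMap k[X] Fc a) = iA a) (f : F[X]) :
    JA ι h (aeval ((1 : F) ⊗ₜ[k] (algebraMap k[X] Fc X)) f) = iF (Fintype.card k) f := by
  rw [← Polynomial.aeval_algHom_apply, JA_tmul, map_one, one_mul, h]
  have e : (iA (X : k[X]) : LS F) = TT F (Fintype.card k) := by
    simp [iA, iF]
  rw [e]
  rfl

theorem JA_EE (c : CycD k Fc P) (ι : Fc →+* LS F)
    (h : ∀ a : k[X], ι (algebraMap k[X] Fc a) = iA a) (Lam : k[X] → LS F)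
    (hL : ∀ a : k[X], ι (c.lam a) = Lam a) (θ : F) (κ : ℕ) (f : F[X]) :
    JA ι h (EE c θ κ f) = iF (Fintype.card k) f / iA P * GG P θ Lam κ := by
  rw [EE_apply, map_mul, map_mul, JA_aeval, JA_tmul, map_one, one_mul, map_inv₀, h]
  unfold GT GG
  rw [map_prod]
  have e : ∏ j ∈ range P.natDegree, JA ι h (gj c (θ ^ Fintype.card k ^ j) ^
      dig (Fintype.card k) κ j) = ∏ j ∈ range P.natDegree, gs P θ Lam j ^
      dig (Fintype.card k) κ j := by
    refine Finset.prod_congr rfl fun j _ => ?_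
    rw [map_pow, JA_gj c ι h Lam hL]
  rw [e, div_eq_mul_inv]
  ring

/-! ### elements integral outside `P` -/

omit [Fintype k] [Algebra k Fc] [IsScalarTower k k[X] Fc] in
theorem op_mul {y y' : Fc} (h : OP P y) (h' : OP P y') : OP P (y * y') := by
  obtain ⟨n, hn⟩ := h
  obtain ⟨m, hm⟩ := h'
  refine ⟨n + m, ?_⟩
  have e : algebraMap k[X] Fc P ^ (n + m) * (y * y') =
      (algebraMap k[X] Fc P ^ n * y) * (algebraMap k[X] Fc P ^ m * y') := by ring
  rw [e]
  exact hn.mul hm

omit [Fintype k] [Algebra k Fc] [IsScalarTower k k[X] Fc] in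
theorem op_int {y : Fc} (h : IsIntegral k[X] y) : OP P y := ⟨0, by simpa using h⟩

/-- the pure tensors with second factor integral outside `P` -/
def opM (k F Fc : Type) [Field k] [Fintype k] [Field F] [Algebra k F] [Field Fc] [Algebra k Fc]
    [Algebra k[X] Fc] (P : k[X]) : Submonoid (F ⊗[k] Fc) where
  carrier := {z | ∃ (u : F) (y : Fc), OP P y ∧ z = u ⊗ₜ[k] y}
  one_mem' := ⟨1, 1, op_int isIntegral_one, rfl⟩
  mul_mem' := by
    rintro z z' ⟨u, y, hy, rfl⟩ ⟨u', y', hy', rfl⟩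
    exact ⟨u * u', y * y', op_mul hy hy', Algebra.TensorProduct.tmul_mul_tmul _ _ _ _⟩

omit [IsScalarTower k k[X] Fc] in
theorem op_dec {z : F ⊗[k] Fc} (hz : z ∈ (opM k F Fc P).subsemiringClosure) :
    ∃ (n : ℕ) (u : Fin n → F) (y : Fin n → Fc), (∀ i, OP P (y i)) ∧
      z = ∑ i, u i ⊗ₜ[k] y i := by
  rw [Submonoid.subsemiringClosure_mem] at hz
  obtain ⟨l, hl, rfl⟩ := AddSubmonoid.exists_list_of_mem_closure hz
  have h1 : ∀ i : Fin l.length, ∃ (u : F) (y : Fc), OP P y ∧ l[i] = u ⊗ₜ[k] y := fun i =>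
    hl _ (List.getElem_mem _)
  choose u y hy he using h1
  refine ⟨l.length, u, y, hy, ?_⟩
  rw [← Fin.sum_univ_getElem l]
  exact Finset.sum_congr rfl fun i _ => he i

omit [IsScalarTower k k[X] Fc] in
theorem tm (u : F) {y : Fc} (h : OP P y) :
    u ⊗ₜ[k] y ∈ (opM k F Fc P).subsemiringClosure := by
  rw [Submonoid.subsemiringClosure_mem]
  exact AddSubmonoid.subset_closure ⟨u, y, h, rfl⟩

end

theorem car_monic (h1 : S_C1) (k : Type) [Field k] [Fintype k] (P : k[X]) (hP : P.Monic) :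
    (car P).Monic := by
  obtain ⟨e, -, -, hm, -⟩ := h1 k
  rw [e P, Finset.sum_range_succ, hm P hP, map_one, one_mul]
  apply Monic.add_of_right (monic_X_pow _)
  rw [degree_X_pow]
  refine (degree_sum_le _ _).trans_lt ?_
  rw [Finset.sup_lt_iff (WithBot.bot_lt_coe _)]
  intro i hi
  refine (degree_C_mul_X_pow_le _ _).trans_lt ?_
  exact_mod_cast Nat.pow_lt_pow_right Fintype.one_lt_card (Finset.mem_range.mp hi)

theorem xh1 : S_C1 → S_C3 → S_I1 → S_GS → S_XH1 := by
  intro h1 h3 hI hG k F Fc _ _ _ _ _ _ _ _ _ P θ κ c Lam ι hP hi hθ hL hE hκ0 hκ1 _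
  obtain ⟨_, _, _, hpow, hzero, _⟩ := h3 k F P θ hP hi hθ
  obtain ⟨_, _, hgs, _⟩ := hG k F P θ Lam hP hi hθ hL
  have hb := hE.base
  have hPF : algebraMap k[X] Fc P ≠ 0 := by
    intro h
    exact hP.ne_zero (c.inj (h.trans (map_zero _).symm))
  refine ⟨(JA ι hb : F ⊗[k] Fc →+* LS F), EE c θ κ, JA_inj ι hb hE.rat,
    fun u y => JA_tmul ι hb u y, fun h => JA_EE c ι hb Lam hE.lam θ κ h, ?_, ?_, ?_⟩
  · rw [injective_iff_map_eq_zero]
    intro f hf
    have k1 := JA_EE c ι hb Lam hE.lam θ κ f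
    rw [hf, map_zero] at k1
    have hiP : (iA P : LS F) ≠ 0 := by
      rw [← hb]
      exact (map_ne_zero ι).mpr hPF
    have hGG : GG P θ Lam κ ≠ 0 := Finset.prod_ne_zero_iff.mpr (fun j _ => pow_ne_zero _ (hgs j))
    have k2 : iF (Fintype.card k) f = 0 := by
      rcases mul_eq_zero.mp k1.symm with h | h
      · rcases div_eq_zero_iff.mp h with h | h
        · exact h
        · exact absurd h hiP
      · exact absurd h hGG
    exact (hI k F).1 (k2.trans (map_zero _).symm)
  · intro f a ha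
    have e1 : sgT c a (aeval ((1 : F) ⊗ₜ[k] (algebraMap k[X] Fc X)) f) =
        aeval ((1 : F) ⊗ₜ[k] (algebraMap k[X] Fc X)) f := by
      rw [← Polynomial.aeval_algHom_apply, sgT_tmul, AlgEquiv.commutes]
    have e2 : sgT c a ((1 : F) ⊗ₜ[k] (algebraMap k[X] Fc P)⁻¹) =
        (1 : F) ⊗ₜ[k] (algebraMap k[X] Fc P)⁻¹ := by
      rw [sgT_tmul, map_inv₀, AlgEquiv.commutes]
    have e3 : sgT c a (GT c θ κ) = (aeval θ a) ^ κ • GT c θ κ := by
      unfold GT
      rw [map_prod]
      have e4 : ∀ j ∈ range P.natDegree, sgT c a (gj c (θ ^ Fintype.card k ^ j) ^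
          dig (Fintype.card k) κ j) = (aeval θ a) ^ (dig (Fintype.card k) κ j *
          Fintype.card k ^ j) • (gj c (θ ^ Fintype.card k ^ j) ^ dig (Fintype.card k) κ j) := by
        intro j _
        rw [map_pow, sgT_gj hP hi c (by
            rw [hpow, hθ, zero_pow (pow_ne_zero _ Fintype.card_ne_zero)]) (by
            intro x hx
            rw [hpow] at hx
            exact (hzero x).mp (pow_eq_zero_iff (pow_ne_zero _ Fintype.card_ne_zero) |>.mp hx)) ha,
          _root_.smul_pow, hpow, ← pow_mul, mul_comm (Fintype.card k ^ j)]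
      rw [Finset.prod_congr rfl e4, Finset.prod_smul, Finset.prod_pow_eq_pow_sum, dig_sum,
        Nat.mod_eq_of_lt (by omega)]
    rw [EE_apply, map_mul, map_mul, e1, e2, e3, smul_mul_assoc, mul_smul_comm]
  · intro f
    apply op_dec
    rw [EE_apply]
    have hX : ((1 : F) ⊗ₜ[k] (algebraMap k[X] Fc X)) ∈ (opM k F Fc P).subsemiringClosure :=
      tm 1 (op_int isIntegral_algebraMap)
    refine mul_mem ?_ (mul_mem ?_ ?_)
    · rw [Polynomial.aeval_eq_sum_range]
      refine sum_mem fun i _ => ?_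
      rw [Algebra.smul_def, Algebra.TensorProduct.algebraMap_apply]
      exact mul_mem (tm _ (op_int isIntegral_one)) (pow_mem hX i)
    · refine prod_mem fun j _ => pow_mem ?_ _
      unfold gj
      rw [← Finset.sum_neg_distrib]
      refine sum_mem fun b _ => ?_
      rw [← TensorProduct.neg_tmul]
      exact tm _ (op_int ⟨car P, car_monic h1 k P hP, (c.roots _).mpr ⟨_, rfl⟩⟩)
    · exact tm _ ⟨1, by
        rw [pow_one, mul_inv_cancel₀ hPF]
        exact isIntegral_one⟩

end Pool.Agent.W490.GK.XH1
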