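import Pool.Agent.W345.GK.Gau

open Polynomial Finset

namespace Pool.Agent.W490.GK

open Pool.Agent.W345.GK

theorem c2 : S_C1 → S_C2 := by
  intro h1 k _ _ P _ hirr
  obtain ⟨_, h0, hs, _, _⟩ := h1 k
  intro i
  induction i with
  | zero =>
    intro _
    rw [h0]
  | succ i ih =>
    intro hi
    have hd : P ∣ (X ^ (Fintype.card k ^ (i + 1)) - X) * br P (i + 1) := by
      rw [hs P i]
      have h2 := ih (by omega)
      exact dvd_sub (dvd_pow h2 Fintype.card_ne_zero) h2
    rcases hirr.prime.dvd_or_dvd hd with h | h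
    · exfalso
      have h3 : P.natDegree ∣ i + 1 := hirr.natDegree_dvd_of_dvd_X_pow_card_pow_sub_X (by
        rw [Nat.card_eq_fintype_card]
        exact h)
      have h4 := Nat.le_of_dvd (by omega) h3
      omega
    · exact h

end Pool.Agent.W490.GK
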